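import Pool.Agent.Helper92.TE.A4

set_option autoImplicit false

namespace Pool.Agent.Helper54.PT

open Polynomial Finset Filter Topology Module

namespace TEA5

variable {σ : Type} [Fintype σ] [DecidableEq σ]

/-- the symmetric matrix -/
def SS (dR : σ → ZMod 2) (sR : σ → σ → ZMod 2) (X : PData 2 σ) (D : Finset X.P) :
    (Option σ ⊕ D) → (Option σ ⊕ D) → ZMod 2
  | Sum.inl (some r), Sum.inl (some r') => if r = r' then 0 else sR r r'
  | Sum.inl (some r), Sum.inl none => dR r
  | Sum.inl none, Sum.inl (some r) => dR r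
  | Sum.inl none, Sum.inl none => 0
  | Sum.inl s, Sum.inr p => X.xx p s
  | Sum.inr p, Sum.inl s => X.xx p s
  | Sum.inr p, Sum.inr p' => if p = p' then 0 else X.sym p p'

variable {dR : σ → ZMod 2} {sR : σ → σ → ZMod 2}

theorem SS_symm (hsym : ∀ r r', r ≠ r' → sR r r' = sR r' r) (X : PData 2 σ) (D : Finset X.P)
    (t t' : Option σ ⊕ D) : SS dR sR X D t t' = SS dR sR X D t' t := by
  rcases t with (_ | r) | p <;> rcases t' with (_ | r') | p' <;> simp only [SS]
  · by_cases h : r = r'
    · subst h; rfl
    · rw [if_neg h, if_neg (Ne.symm h), hsym r r' h]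
  · by_cases h : p = p'
    · subst h; rfl
    · rw [if_neg h, if_neg (Ne.symm h)]
      exact X.sym_comm _ _ (fun h' => h (Subtype.ext h'))

theorem SS_diag (X : PData 2 σ) (D : Finset X.P) (t : Option σ ⊕ D) :
    SS dR sR X D t t = 0 := by
  rcases t with (_ | r) | p <;> simp [SS]

theorem sum_inl (X : PData 2 σ) (D : Finset X.P) (b : Option σ → ZMod 2) (x : D → ZMod 2)
    (t : Option σ) :
    ∑ t', SS dR sR X D (Sum.inl t) t' * Sum.elim b x t' =
      zl dR sR b (fun s => ∑ p : D, X.xx p s * x p) t := by
  rw [Fintype.sum_sum_type, Fintype.sum_option]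
  simp only [Sum.elim_inl, Sum.elim_inr]
  rcases t with _ | r
  · simp only [SS, zl]
    ring
  · simp only [SS, zl]
    have h1 : ∑ r' : σ, (if r = r' then 0 else sR r r') * b (some r') =
        ∑ r' ∈ univ.erase r, b (some r') * sR r r' := by
      rw [← Finset.add_sum_erase _ _ (Finset.mem_univ r)]
      rw [if_pos rfl, zero_mul, zero_add]
      refine Finset.sum_congr rfl fun r' hr' => ?_
      rw [if_neg (Ne.symm (Finset.ne_of_mem_erase hr')), mul_comm]
    rw [h1]
    ring

theorem sum_inr (X : PData 2 σ) (D : Finset X.P) (b : Option σ → ZMod 2) (x : D → ZMod 2)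
    (p : D) :
    ∑ t', SS dR sR X D (Sum.inr p) t' * Sum.elim b x t' =
      ∑ s, X.xx p s * b s + ∑ p' : D, (if p = p' then 0 else X.sym p p') * x p' := by
  rw [Fintype.sum_sum_type]
  simp only [Sum.elim_inl, Sum.elim_inr]
  congr 1

/-- the graph at a prime of `D` -/
noncomputable def gm (A B C : Option σ → ZMod 2) (X : PData 2 σ) (D : Finset X.P) (p : D) :
    (Fin 2 → ZMod 2) →ₗ[ZMod 2] LS where
  toFun v := (v, fun j => (∑ p' : D, if p' = p then 0 else X.sym p' p) * v j +
    ∑ s, tauF A B C v j s * X.xx p s)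
  map_add' v v' := by
    apply Prod.ext
    · rfl
    · funext j
      simp only [map_add, Pi.add_apply, Prod.snd_add, add_mul, Finset.sum_add_distrib]
      ring
  map_smul' c v := by
    apply Prod.ext
    · rfl
    · funext j
      have h : tauF A B C (c • v) = c • tauF A B C v := by
        have hc : ∀ c : ZMod 2, c = 0 ∨ c = 1 := by decide
        rcases hc c with rfl | rfl
        · rw [zero_smul, zero_smul, map_zero]
        · rw [one_smul, one_smul]
      simp only [h, Pi.smul_apply, Prod.smul_snd, RingHom.id_apply, smul_eq_mul, Finset.mul_sum]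
      rw [mul_add, Finset.mul_sum]
      congr 1
      · ring
      · exact Finset.sum_congr rfl fun s _ => by ring

theorem gm_inj (A B C : Option σ → ZMod 2) (X : PData 2 σ) (D : Finset X.P) (p : D) :
    Function.Injective (gm A B C X D p) := by
  intro v v' h
  exact congrArg Prod.fst h

theorem mem_range_gm (A B C : Option σ → ZMod 2) (X : PData 2 σ) (D : Finset X.P) (p : D)
    (w : LS) : w ∈ LinearMap.range (gm A B C X D p) ↔
      ∀ j, w.2 j = (∑ p' : D, if p' = p then 0 else X.sym p' p) * w.1 j +
        ∑ s, tauF A B C w.1 j s * X.xx p s := by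
  constructor
  · rintro ⟨v, rfl⟩ j
    rfl
  · intro h
    exact ⟨w.1, Prod.ext rfl (funext fun j => (h j).symm)⟩

/-- vectors with first component zero -/
def Lz : Submodule (ZMod 2) LS := LinearMap.ker (LinearMap.fst (ZMod 2) (Fin 2 → ZMod 2)
  (Fin 2 → ZMod 2))

theorem mem_Lz (w : LS) : w ∈ Lz ↔ w.1 = 0 := Iff.rfl

theorem finrank_Lz : finrank (ZMod 2) Lz = 2 := by
  have h := LinearMap.finrank_range_add_finrank_ker
    (LinearMap.fst (ZMod 2) (Fin 2 → ZMod 2) (Fin 2 → ZMod 2))
  have h2 : LinearMap.range (LinearMap.fst (ZMod 2) (Fin 2 → ZMod 2) (Fin 2 → ZMod 2)) = ⊤ :=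
    LinearMap.range_eq_top.2 Prod.fst_surjective
  have e1 : finrank (ZMod 2) (Fin 2 → ZMod 2) = 2 := by simp
  have e2 : finrank (ZMod 2) ((Fin 2 → ZMod 2) × (Fin 2 → ZMod 2)) = 4 := by
    rw [Module.finrank_prod, e1]
  rw [h2, finrank_top, e1, e2] at h
  exact Nat.add_left_cancel (h.trans (by norm_num : 4 = 2 + 2))

theorem tau0 (A B C : Option σ → ZMod 2) (v : Fin 2 → ZMod 2) (X : PData 2 σ) (p : X.P) :
    ∑ s, tauF A B C v 0 s * X.xx p s =
      v 0 * ∑ s, A s * X.xx p s + v 1 * ∑ s, X.xx p s * (A s + B s) := by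
  rw [Finset.mul_sum, Finset.mul_sum, ← Finset.sum_add_distrib]
  refine Finset.sum_congr rfl fun s _ => ?_
  have : tauF A B C v 0 s = v 0 * A s + v 1 * (A s + B s) := rfl
  rw [this]
  ring

theorem tau1 (A B C : Option σ → ZMod 2) (v : Fin 2 → ZMod 2) (X : PData 2 σ) (p : X.P) :
    ∑ s, tauF A B C v 1 s * X.xx p s =
      v 0 * ∑ s, X.xx p s * (A s + C s) + v 1 * ∑ s, A s * X.xx p s := by
  rw [Finset.mul_sum, Finset.mul_sum, ← Finset.sum_add_distrib]
  refine Finset.sum_congr rfl fun s _ => ?_
  have : tauF A B C v 1 s = v 0 * (A s + C s) + v 1 * A s := rfl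
  rw [this]
  ring

end TEA5

variable {σ : Type} [Fintype σ] [DecidableEq σ]
  {dR : σ → ZMod 2} {sR : σ → σ → ZMod 2} {A B C : Option σ → ZMod 2}
  {M : Option σ → ZMod 2 → Submodule (ZMod 2) LS}

open Classical in
open TEA5 in
/-- A5: the parity of the formal Selmer groups (uses A4) -/
theorem parity_HM (hM : LD dR sR A B C M) (X : PData 2 σ) (D : Finset X.P) :
    ∃ s s' : ℕ, (GD X (tauF A B C) (HM dR sR M) D).card = 2 ^ s ∧
      (univ.filter fun b : Option σ → Fin 2 → ZMod 2 => HM dR sR M b 0 0).card = 2 ^ s' ∧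
      (s : ZMod 2) = s' + ∑ t, (finrank (ZMod 2)
        (M t (kap X D t) ⊓ M t 0 : Submodule (ZMod 2) LS) : ZMod 2) := by
  have hz : ∀ (f : Option σ → ZMod 2), (fun s => ∑ p : D, X.xx p s * (0 : D → ZMod 2) p) =
      (0 : Option σ → ZMod 2) := by
    intro f; funext s; simp
  obtain ⟨s, s', hs, hs', hpar⟩ := parity_mat (T := Option σ ⊕ D) (SS dR sR X D)
    (SS_symm hM.sym X D) (SS_diag X D)
    (Sum.elim (fun t => A t + C t) 0) (Sum.elim (fun t => A t + B t) 0)
    (Sum.elim (fun t => M t (kap X D t)) (fun p => LinearMap.range (gm A B C X D p)))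
    (Sum.elim (fun t => M t 0) (fun _ => Lz))
    (by
      rintro (t | p)
      · exact hM.dim t _
      · change finrank (ZMod 2) (LinearMap.range (gm A B C X D p)) = 2
        rw [LinearMap.finrank_range_of_inj (gm_inj A B C X D p)]
        simp)
    (by
      rintro (t | p)
      · exact hM.dim t _
      · exact finrank_Lz)
    (by
      rintro (t | p) w hw
      · rw [sum_inl, sum_inl, hz A]
        exact hM.iso t _ w hw
      · rw [sum_inr, sum_inr]
        simp only [Sum.elim_inr] at hw
        rw [mem_range_gm] at hw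
        simp only [Sum.elim_inr, Pi.zero_apply, mul_zero, Finset.sum_const_zero, add_zero]
        unfold qL
        rw [hw 0, hw 1, tau0, tau1]
        simp only [mul_zero, add_zero]
        generalize (∑ p' : D, if p' = p then 0 else X.sym p' p) = d
        generalize (∑ s, X.xx p s * (A s + C s)) = a1
        generalize (∑ s, X.xx p s * (A s + B s)) = a2
        generalize (∑ s, A s * X.xx p s) = a
        generalize w.1 0 = x0
        generalize w.1 1 = x1
        revert d a1 a2 a x0 x1
        decide)
    (by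
      rintro (t | p) w hw
      · rw [sum_inl, sum_inl, hz A]
        exact hM.iso t _ w hw
      · simp only [Sum.elim_inr] at hw
        rw [mem_Lz] at hw
        simp [qL, hw])
  refine ⟨s, s', ?_, ?_, ?_⟩
  · rw [← hs]
    symm
    refine Finset.card_equiv (Equiv.sumArrowEquivProdArrow (Option σ) D (Fin 2 → ZMod 2)) ?_
    intro x
    have hmem : ∀ y, y ∈ GD X (tauF A B C) (HM dR sR M) D ↔
        (HM dR sR M y.1 (ysum X y.2) (kap X D) ∧
          ∀ p j, pcond X (tauF A B C) y.1 y.2 p j = 0) := by
      intro y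
      simp only [GD, Finset.mem_filter, Finset.mem_univ, true_and]
    rw [hmem, Finset.mem_filter]
    simp only [Finset.mem_univ, true_and]
    rw [Sum.forall]
    have hx : ∀ j, (fun t' => x t' j) =
        Sum.elim (fun s => x (Sum.inl s) j) (fun p => x (Sum.inr p) j) := by
      intro j
      funext t'
      rcases t' with t' | t' <;> rfl
    have hsum : ∀ t j, ∑ t', SS dR sR X D t t' * x t' j = ∑ t', SS dR sR X D t t' *
        Sum.elim (fun s => x (Sum.inl s) j) (fun p => x (Sum.inr p) j) t' := by
      intro t j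
      rw [← hx j]
    apply and_congr
    · unfold HM
      refine forall_congr' fun t => ?_
      simp only [hsum, sum_inl, Sum.elim_inl]
      rfl
    · refine forall_congr' fun p => ?_
      simp only [hsum, sum_inr, Sum.elim_inr]
      rw [mem_range_gm]
      refine forall_congr' fun j => ?_
      simp only [pcond, Equiv.sumArrowEquivProdArrow, Equiv.coe_fn_mk]
      have e1 : ∑ p' : D, (if p' = p then 0 else (x (Sum.inr p') j - x (Sum.inr p) j) *
          X.sym p' p) = ∑ p' : D, (if p = p' then 0 else X.sym p p') * x (Sum.inr p') j +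
          (∑ p' : D, if p' = p then 0 else X.sym p' p) * x (Sum.inr p) j := by
        rw [Finset.sum_mul, ← Finset.sum_add_distrib]
        refine Finset.sum_congr rfl fun p' _ => ?_
        by_cases h : p' = p
        · rw [if_pos h, if_pos h, if_pos h.symm]; ring
        · rw [if_neg h, if_neg h, if_neg (Ne.symm h), X.sym_comm p p' (fun h' => h
            (Subtype.ext h').symm)]
          have : ∀ a b c : ZMod 2, (a - b) * c = c * a + c * b := by decide
          exact this _ _ _
      have e2 : ∑ s, (Function.comp x Sum.inl) s j * X.xx p s =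
          ∑ s, X.xx p s * x (Sum.inl s) j :=
        Finset.sum_congr rfl fun s _ => mul_comm _ _
      have key : ∀ a b c d : ZMod 2, a + b = c + d ↔ a + (b + c) - d = 0 := by decide
      refine (key _ _ _ _).trans ?_
      rw [← e1, ← e2]
      rfl
  · rw [← hs']
    symm
    refine Finset.card_nbij' (fun x s => x (Sum.inl s)) (fun b => Sum.elim b 0) ?_ ?_ ?_ ?_
    · intro x hx
      rw [Finset.mem_coe, Finset.mem_filter] at hx
      rw [Finset.mem_coe, Finset.mem_filter]
      refine ⟨Finset.mem_univ _, ?_⟩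
      have hx2 : ∀ p : D, x (Sum.inr p) = 0 := fun p => hx.2 (Sum.inr p)
      intro t
      have h1 := hx.2 (Sum.inl t)
      simp only [Sum.elim_inl] at h1
      have hx3 : ∀ j, (fun t' => x t' j) = Sum.elim (fun s => x (Sum.inl s) j) 0 := by
        intro j
        funext t'
        rcases t' with t' | t'
        · rfl
        · exact congrFun (hx2 t') j
      have hsum : ∀ j, ∑ t', SS dR sR X D (Sum.inl t) t' * x t' j =
          zl dR sR (fun s => x (Sum.inl s) j) 0 t := by
        intro j
        have h4 : ∀ t', x t' j = Sum.elim (fun s => x (Sum.inl s) j) (0 : D → ZMod 2) t' :=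
          fun t' => congrFun (hx3 j) t'
        rw [Finset.sum_congr rfl fun t' _ => congrArg (fun z => SS dR sR X D (Sum.inl t) t' * z)
          (h4 t'), sum_inl, hz A]
      simp only [hsum] at h1
      exact h1
    · intro b hb
      rw [Finset.mem_coe, Finset.mem_filter] at hb
      rw [Finset.mem_coe, Finset.mem_filter]
      refine ⟨Finset.mem_univ _, ?_⟩
      rintro (t | p)
      · have h1 := hb.2 t
        have hsum : ∀ j, ∑ t', SS dR sR X D (Sum.inl t) t' *
            (Sum.elim b (0 : D → Fin 2 → ZMod 2)) t' j = zl dR sR (fun s => b s j) 0 t := by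
          intro j
          have : ∀ t', (Sum.elim b (0 : D → Fin 2 → ZMod 2)) t' j =
              Sum.elim (fun s => b s j) (0 : D → ZMod 2) t' := by
            intro t'
            rcases t' with t' | t' <;> rfl
          simp_rw [this]
          rw [sum_inl, hz A]
        simp only [hsum, Sum.elim_inl]
        exact h1
      · exact (rfl : (0 : Fin 2 → ZMod 2) = 0)
    · intro x hx
      rw [Finset.mem_coe, Finset.mem_filter] at hx
      have hx2 : ∀ p : D, x (Sum.inr p) = 0 := fun p => hx.2 (Sum.inr p)
      funext t'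
      rcases t' with t' | t'
      · rfl
      · exact (hx2 t').symm
    · intro b hb
      rfl
  · have h0 : ∀ p : D, (LinearMap.range (gm A B C X D p) ⊓ Lz : Submodule (ZMod 2) LS) = ⊥ := by
      intro p
      rw [Submodule.eq_bot_iff]
      intro w hw
      rw [Submodule.mem_inf, mem_range_gm, mem_Lz] at hw
      obtain ⟨h1, h2⟩ := hw
      apply Prod.ext h2
      funext j
      rw [h1 j, h2]
      simp
    have h1 : ∑ p : D, (finrank (ZMod 2) (LinearMap.range (gm A B C X D p) ⊓ Lz :
        Submodule (ZMod 2) LS) : ZMod 2) = 0 :=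
      Finset.sum_eq_zero fun p _ => by rw [h0 p, finrank_bot, Nat.cast_zero]
    rw [hpar, Fintype.sum_sum_type]
    change (s' : ZMod 2) + (∑ t, (finrank (ZMod 2)
        (M t (kap X D t) ⊓ M t 0 : Submodule (ZMod 2) LS) : ZMod 2) +
      ∑ p : D, (finrank (ZMod 2) (LinearMap.range (gm A B C X D p) ⊓ Lz :
        Submodule (ZMod 2) LS) : ZMod 2)) = _
    rw [h1, add_zero]

end Pool.Agent.Helper54.PT
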