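import Pool.Agent.Helper54.PT.DefsF
import Pool.Agent.Helper99.TW.C9
import Pool.Agent.Helper57.TW.C1

set_option autoImplicit false

namespace Pool.Agent.Helper54.PT

open Polynomial Finset Filter Topology Module

namespace TEB7

variable {K : Type} [Field K]

theorem ultra (v : AbsoluteValue K ℝ) (hna : ∀ x y, v (x + y) ≤ max (v x) (v y)) :
    IsUltrametricDist v.Completion := by
  have hnat : ∀ n : ℕ, v (n : K) ≤ 1 := by
    intro n
    induction n with
    | zero => simp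
    | succ n ih =>
      rw [Nat.cast_succ]
      exact (hna _ _).trans (max_le ih (by rw [map_one]))
  rw [isUltrametricDist_iff_forall_norm_natCast_le_one]
  intro n
  have h1 : (n : v.Completion) = algebraMap K v.Completion (n : K) := by
    rw [map_natCast]
  rw [h1, Helper47.BSD.norm_algebraMap]
  exact hnat n

/-- elements close to `x` differ from it by a square -/
theorem near_sq (v : AbsoluteValue K ℝ) (hna : ∀ x y, v (x + y) ≤ max (v x) (v y))
    (h2 : v 2 = 1) (x y : v.Completion) (hx : x ≠ 0) (hxy : ‖y - x‖ < ‖x‖) :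
    ∃ w : v.Completion, y = w ^ 2 * x := by
  have hu : IsUltrametricDist v.Completion := ultra v hna
  have h2' : ‖((2 : ℕ) : v.Completion)‖ = 1 := by
    have h1 : ((2 : ℕ) : v.Completion) = algebraMap K v.Completion (2 : K) := by
      push_cast
      rw [map_ofNat]
    rw [h1, Helper47.BSD.norm_algebraMap]
    exact h2
  have hxn : 0 < ‖x‖ := norm_pos_iff.2 hx
  obtain ⟨w, hw, -⟩ := exists_pow_near_one (L := v.Completion) two_pos h2' (y / x) (by
    have h1 : y / x - 1 = (y - x) / x := by field_simp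
    rw [h1, norm_div, div_lt_one hxn]
    exact hxy)
  refine ⟨w, ?_⟩
  rw [hw, div_mul_cancel₀ _ hx]

end TEB7

open TEB7 in
/-- B7: the class of a covering with a local point.  `hsq` is the only property of the completion
that is used. -/
theorem locK_of_cov {K : Type} [Field K] (v : AbsoluteValue K ℝ) (hv : v.IsNontrivial)
    (hna : ∀ x y, v (x + y) ≤ max (v x) (v y)) (h2 : v 2 = 1) {c : K → ZMod 2 × ZMod 2}
    (hc : ∀ x y, x ≠ 0 → y ≠ 0 → c (x * y) = c x + c y) (hneg : c (-1) = 0)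
    (hsq : ∀ x : K, x ≠ 0 → (∃ y : v.Completion, algebraMap K v.Completion x = y ^ 2) → c x = 0)
    {α β δ b₁ b₂ : K} (hα : α ≠ 0) (hβ : β ≠ 0) (hγ : β - α ≠ 0) (hδ : δ ≠ 0) (h₁ : b₁ ≠ 0)
    (h₂ : b₂ ≠ 0) (h : Cov (algebraMap K v.Completion (δ * α)) (algebraMap K v.Completion (δ * β))
      (algebraMap K v.Completion b₁) (algebraMap K v.Completion b₂)) :
    LocK c α β (c δ) (mkL (c b₁) (c b₂)) := by
  have _ := hv
  set φ := algebraMap K v.Completion with hφ
  have hφ0 : ∀ x : K, φ x = 0 ↔ x = 0 := fun x => map_eq_zero_iff _ φ.injective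
  have hB1 : φ b₁ ≠ 0 := fun h0 => h₁ ((hφ0 _).1 h0)
  have hB2 : φ b₂ ≠ 0 := fun h0 => h₂ ((hφ0 _).1 h0)
  have hdbl : ∀ a b : ZMod 2 × ZMod 2, a + b = 0 → a = b := by decide
  have hnegc : ∀ x : K, x ≠ 0 → c (-x) = c x := by
    intro x hx
    rw [neg_eq_neg_one_mul, hc _ _ (neg_ne_zero.2 one_ne_zero) hx, hneg, zero_add]
  obtain ⟨z0, z1, z2, z3, hne, e1, e2⟩ := h
  by_cases hz0 : z0 = 0
  · left
    rw [hz0] at e1 e2
    have e1' : φ b₂ * z2 ^ 2 = φ b₁ * z1 ^ 2 := by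
      have := e1; rw [zero_pow two_ne_zero, mul_zero, sub_eq_zero] at this; exact this
    have e2' : φ b₁ * φ b₂ * z3 ^ 2 = φ b₁ * z1 ^ 2 := by
      have := e2; rw [zero_pow two_ne_zero, mul_zero, sub_eq_zero] at this; exact this
    have e3 : φ b₂ * z3 ^ 2 = z1 ^ 2 := by
      apply mul_left_cancel₀ hB1
      rw [← e2']; ring
    have hz3 : z3 ≠ 0 := by
      intro h3
      have h1 : z1 = 0 := by
        rw [h3, zero_pow two_ne_zero, mul_zero] at e3
        exact pow_eq_zero_iff two_ne_zero |>.1 e3.symm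
      have h2' : z2 = 0 := by
        rw [h1, zero_pow two_ne_zero, mul_zero] at e1'
        exact pow_eq_zero_iff two_ne_zero |>.1 ((mul_eq_zero.1 e1').resolve_left hB2)
      exact hne ⟨hz0, h1, h2', h3⟩
    have hz1 : z1 ≠ 0 := by
      intro h1
      rw [h1, zero_pow two_ne_zero] at e3
      exact hz3 (pow_eq_zero_iff two_ne_zero |>.1 ((mul_eq_zero.1 e3).resolve_left hB2))
    have hb2 : c b₂ = 0 := hsq b₂ h₂ ⟨z1 / z3, by
      rw [div_pow, eq_div_iff (pow_ne_zero 2 hz3)]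
      exact e3⟩
    have hb1 : c b₁ = 0 := hsq b₁ h₁ ⟨z2 / z3, by
      rw [div_pow, eq_div_iff (pow_ne_zero 2 hz3)]
      apply mul_right_cancel₀ hB2
      have : φ b₁ * z3 ^ 2 * φ b₂ = φ b₁ * z1 ^ 2 := by
        rw [← e3]; ring
      rw [this, ← e1']; ring⟩
    rw [hb1, hb2]
    apply Prod.ext <;> funext j <;> fin_cases j <;> rfl
  · -- affine points
    obtain ⟨y1, y2, y3, f1, f2⟩ : ∃ y1 y2 y3 : v.Completion,
        φ b₂ * y2 ^ 2 = φ b₁ * y1 ^ 2 + φ (δ * α) ∧
        φ b₁ * φ b₂ * y3 ^ 2 = φ b₁ * y1 ^ 2 + φ (δ * β) := by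
      refine ⟨z1 / z0, z2 / z0, z3 / z0, ?_, ?_⟩
      · have h0 : φ (δ * α) = (φ b₂ * z2 ^ 2 - φ b₁ * z1 ^ 2) / z0 ^ 2 := by
          rw [e1]; field_simp
        rw [h0]; field_simp; ring
      · have h0 : φ (δ * β) = (φ b₁ * φ b₂ * z3 ^ 2 - φ b₁ * z1 ^ 2) / z0 ^ 2 := by
          rw [e2]; field_simp
        rw [h0]; field_simp; ring
    set x : v.Completion := φ b₁ * y1 ^ 2 with hx
    by_cases hx0 : x = 0
    · -- the point `T₁`
      right; left
      rw [hx0, zero_add] at f1 f2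
      have g1 : c (δ * α * b₂) = 0 := hsq _ (mul_ne_zero (mul_ne_zero hδ hα) h₂)
        ⟨φ b₂ * y2, by rw [map_mul, ← f1]; ring⟩
      have g2 : c (δ * β * (b₁ * b₂)) = 0 := hsq _
        (mul_ne_zero (mul_ne_zero hδ hβ) (mul_ne_zero h₁ h₂))
        ⟨φ b₁ * φ b₂ * y3, by rw [map_mul, map_mul φ b₁, ← f2]; ring⟩
      rw [hc _ _ (mul_ne_zero hδ hα) h₂, hc _ _ hδ hα] at g1
      rw [hc _ _ (mul_ne_zero hδ hβ) (mul_ne_zero h₁ h₂), hc _ _ hδ hβ, hc _ _ h₁ h₂] at g2
      have k1 := hdbl _ _ g1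
      rw [hc _ _ hα hβ]
      have k2 : ∀ d a b u w : ZMod 2 × ZMod 2, d + a = w → d + b + (u + w) = 0 → u = a + b := by
        intro d a b u w h1 h2
        subst h1
        revert d a b u
        decide
      rw [k2 _ _ _ _ _ k1 g2, ← k1]
    by_cases hx1 : x + φ (δ * α) = 0
    · right; right; left
      have g1 : c (-(δ * α) * b₁) = 0 := hsq _ (mul_ne_zero (neg_ne_zero.2 (mul_ne_zero hδ hα)) h₁)
        ⟨φ b₁ * y1, by
          have : φ (-(δ * α)) = x := by rw [map_neg]; exact (eq_neg_of_add_eq_zero_left hx1).symm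
          rw [map_mul, this, hx]; ring⟩
      have g2 : c (δ * (β - α) * (b₁ * b₂)) = 0 := hsq _
        (mul_ne_zero (mul_ne_zero hδ hγ) (mul_ne_zero h₁ h₂))
        ⟨φ b₁ * φ b₂ * y3, by
          have h3 : φ (δ * (β - α)) = φ b₁ * φ b₂ * y3 ^ 2 := by
            rw [f2, eq_neg_of_add_eq_zero_left hx1, mul_sub, map_sub]; ring
          rw [map_mul, h3, map_mul φ b₁]; ring⟩
      rw [hc _ _ (neg_ne_zero.2 (mul_ne_zero hδ hα)) h₁, hnegc _ (mul_ne_zero hδ hα),
        hc _ _ hδ hα] at g1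
      rw [hc _ _ (mul_ne_zero hδ hγ) (mul_ne_zero h₁ h₂), hc _ _ hδ hγ, hc _ _ h₁ h₂] at g2
      have k1 := hdbl _ _ g1
      rw [hc _ _ hα hγ]
      have k2 : ∀ d a b u w : ZMod 2 × ZMod 2, d + a = u → d + b + (u + w) = 0 → w = a + b := by
        intro d a b u w h1 h2
        subst h1
        revert d a b w
        decide
      rw [k2 _ _ _ _ _ k1 g2, ← k1]
    by_cases hx2 : x + φ (δ * β) = 0
    · right; right; right; left
      have g1 : c (-(δ * β) * b₁) = 0 := hsq _ (mul_ne_zero (neg_ne_zero.2 (mul_ne_zero hδ hβ)) h₁)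
        ⟨φ b₁ * y1, by
          have : φ (-(δ * β)) = x := by rw [map_neg]; exact (eq_neg_of_add_eq_zero_left hx2).symm
          rw [map_mul, this, hx]; ring⟩
      have g2 : c (-(δ * (β - α)) * b₂) = 0 := hsq _
        (mul_ne_zero (neg_ne_zero.2 (mul_ne_zero hδ hγ)) h₂)
        ⟨φ b₂ * y2, by
          have h3 : φ (-(δ * (β - α))) = φ b₂ * y2 ^ 2 := by
            rw [f1, eq_neg_of_add_eq_zero_left hx2, mul_sub, map_neg, map_sub]; ring
          rw [map_mul, h3]; ring⟩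
      rw [hc _ _ (neg_ne_zero.2 (mul_ne_zero hδ hβ)) h₁, hnegc _ (mul_ne_zero hδ hβ),
        hc _ _ hδ hβ] at g1
      rw [hc _ _ (neg_ne_zero.2 (mul_ne_zero hδ hγ)) h₂, hnegc _ (mul_ne_zero hδ hγ),
        hc _ _ hδ hγ] at g2
      rw [← hdbl _ _ g1, ← hdbl _ _ g2]
    · -- a general point
      right; right; right; right
      have hpos : 0 < min ‖x‖ (min ‖x + φ (δ * α)‖ ‖x + φ (δ * β)‖) :=
        lt_min (norm_pos_iff.2 hx0) (lt_min (norm_pos_iff.2 hx1) (norm_pos_iff.2 hx2))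
      obtain ⟨x0', hx0'⟩ := Metric.denseRange_iff.1
        (UniformSpace.Completion.denseRange_coe (α := WithAbs v)) x _ hpos
      set x0 : K := x0'.ofAbs with hx0def
      have hd : ‖x - φ x0‖ < min ‖x‖ (min ‖x + φ (δ * α)‖ ‖x + φ (δ * β)‖) := by
        rw [dist_eq_norm] at hx0'
        exact hx0'
      have hd0 : ‖φ x0 - x‖ < ‖x‖ := by
        rw [norm_sub_rev]; exact hd.trans_le (min_le_left _ _)
      have hd1 : ‖φ (x0 + δ * α) - (x + φ (δ * α))‖ < ‖x + φ (δ * α)‖ := by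
        have : φ (x0 + δ * α) - (x + φ (δ * α)) = φ x0 - x := by rw [map_add]; ring
        rw [this, norm_sub_rev]
        exact hd.trans_le ((min_le_right _ _).trans (min_le_left _ _))
      have hd2 : ‖φ (x0 + δ * β) - (x + φ (δ * β))‖ < ‖x + φ (δ * β)‖ := by
        have : φ (x0 + δ * β) - (x + φ (δ * β)) = φ x0 - x := by rw [map_add]; ring
        rw [this, norm_sub_rev]
        exact hd.trans_le ((min_le_right _ _).trans (min_le_right _ _))
      have hnz : ∀ (y : K) (z : v.Completion), ‖φ y - z‖ < ‖z‖ → y ≠ 0 := by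
        intro y z hyz h0
        rw [h0, map_zero, zero_sub, norm_neg] at hyz
        exact lt_irrefl _ hyz
      have hn0 := hnz _ _ hd0
      have hn1 := hnz _ _ hd1
      have hn2 := hnz _ _ hd2
      obtain ⟨w0, hw0⟩ := near_sq v hna h2 x (φ x0) hx0 hd0
      obtain ⟨w1, hw1⟩ := near_sq v hna h2 _ (φ (x0 + δ * α)) hx1 hd1
      obtain ⟨w2, hw2⟩ := near_sq v hna h2 _ (φ (x0 + δ * β)) hx2 hd2
      have g0 : c (x0 * b₁) = 0 := hsq _ (mul_ne_zero hn0 h₁)
        ⟨w0 * (φ b₁ * y1), by rw [map_mul, hw0, hx]; ring⟩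
      have g1 : c ((x0 + δ * α) * b₂) = 0 := hsq _ (mul_ne_zero hn1 h₂)
        ⟨w1 * (φ b₂ * y2), by rw [map_mul, hw1, ← f1]; ring⟩
      have g2 : c ((x0 + δ * β) * (b₁ * b₂)) = 0 := hsq _ (mul_ne_zero hn2 (mul_ne_zero h₁ h₂))
        ⟨w2 * (φ b₁ * φ b₂ * y3), by rw [map_mul, hw2, ← f2, map_mul φ b₁]; ring⟩
      rw [hc _ _ hn0 h₁] at g0
      rw [hc _ _ hn1 h₂] at g1
      rw [hc _ _ hn2 (mul_ne_zero h₁ h₂), hc _ _ h₁ h₂] at g2
      have k0 := hdbl _ _ g0
      have k1 := hdbl _ _ g1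
      have k2 := hdbl _ _ g2
      refine ⟨δ, x0, hδ, rfl, hn0, hn1, hn2, ?_, ?_⟩
      · rw [k0, k1, k2]
        have : ∀ a b : ZMod 2 × ZMod 2, a + b + (a + b) = 0 := by decide
        exact this _ _
      · rw [k0, k1]

end Pool.Agent.Helper54.PT
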