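import Pool.Agent.Helper54.PT.DefsF
import Pool.Agent.Helper3.TW.D5

set_option autoImplicit false

namespace Pool.Agent.Helper54.PT

open Polynomial Finset Filter Topology Module

namespace TEA4

theorem qL_add (g₁ g₂ : ZMod 2 × ZMod 2) (w w' : LS) :
    qL g₁ g₂ (w + w') = qL g₁ g₂ w + qL g₁ g₂ w' + bL w w' := by
  unfold qL bL
  simp only [Prod.fst_add, Prod.snd_add, Pi.add_apply]
  ring

variable {T : Type} [Fintype T] [DecidableEq T]

/-- the bilinear form on `T → LS` -/
noncomputable def BB : (T → LS) →ₗ[ZMod 2] (T → LS) →ₗ[ZMod 2] ZMod 2 :=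
  LinearMap.mk₂ (ZMod 2) (fun x y => ∑ t, bL (x t) (y t))
    (by
      intro x x' y
      rw [← Finset.sum_add_distrib]
      refine Finset.sum_congr rfl fun t _ => ?_
      unfold bL
      simp only [Prod.fst_add, Prod.snd_add, Pi.add_apply]
      ring)
    (by
      intro c x y
      rw [Finset.smul_sum]
      refine Finset.sum_congr rfl fun t _ => ?_
      unfold bL
      simp only [Prod.smul_fst, Prod.smul_snd, Pi.smul_apply, smul_eq_mul]
      ring)
    (by
      intro x y y'
      rw [← Finset.sum_add_distrib]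
      refine Finset.sum_congr rfl fun t _ => ?_
      unfold bL
      simp only [Prod.fst_add, Prod.snd_add, Pi.add_apply]
      ring)
    (by
      intro c x y
      rw [Finset.smul_sum]
      refine Finset.sum_congr rfl fun t _ => ?_
      unfold bL
      simp only [Prod.smul_fst, Prod.smul_snd, Pi.smul_apply, smul_eq_mul]
      ring)

theorem BB_apply (x y : T → LS) : BB x y = ∑ t, bL (x t) (y t) := rfl

theorem BB_nondeg (x : T → LS) (h : ∀ y, BB x y = 0) : x = 0 := by
  funext t
  have key : ∀ e : LS, bL (x t) e = 0 := by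
    intro e
    have h1 := h (Pi.single t e)
    rw [BB_apply, Finset.sum_eq_single t] at h1
    · simpa using h1
    · intro t' _ ht'
      rw [Pi.single_eq_of_ne ht']
      simp [bL]
    · intro ht
      exact absurd (Finset.mem_univ t) ht
  have h1 := key (0, ![0, 1])
  have h2 := key (0, ![1, 0])
  have h3 := key (![0, 1], 0)
  have h4 := key (![1, 0], 0)
  simp only [bL, Pi.zero_apply, Matrix.cons_val_zero, Matrix.cons_val_one, mul_zero, mul_one,
    add_zero, zero_add] at h1 h2 h3 h4
  apply Prod.ext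
  · funext j
    fin_cases j
    · exact h1
    · exact h2
  · funext j
    fin_cases j
    · exact h3
    · exact h4

/-- the graph map -/
noncomputable def GG (S : T → T → ZMod 2) : (T → Fin 2 → ZMod 2) →ₗ[ZMod 2] (T → LS) where
  toFun x t := (x t, fun j => ∑ t', S t t' * x t' j)
  map_add' x y := by
    funext t
    apply Prod.ext
    · rfl
    · funext j
      simp only [Pi.add_apply, Prod.snd_add]
      rw [← Finset.sum_add_distrib]
      exact Finset.sum_congr rfl fun t' _ => by ring
  map_smul' c x := by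
    funext t
    apply Prod.ext
    · rfl
    · funext j
      simp only [Pi.smul_apply, Prod.smul_snd, RingHom.id_apply, smul_eq_mul, Finset.mul_sum]
      exact Finset.sum_congr rfl fun t' _ => by ring

theorem GG_inj (S : T → T → ZMod 2) : Function.Injective (GG S) := by
  intro x y h
  funext t
  have := congrArg Prod.fst (congrFun h t)
  exact this

/-- product of submodules -/
noncomputable def piEquiv (L : T → Submodule (ZMod 2) LS) :
    (Submodule.pi Set.univ L) ≃ₗ[ZMod 2] (∀ t, L t) where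
  toFun x t := ⟨x.1 t, x.2 t (Set.mem_univ t)⟩
  map_add' x y := rfl
  map_smul' c x := rfl
  invFun y := ⟨fun t => (y t).1, fun t _ => (y t).2⟩
  left_inv x := rfl
  right_inv y := rfl

theorem rk_pi (L : T → Submodule (ZMod 2) LS) :
    finrank (ZMod 2) (Submodule.pi Set.univ L : Submodule (ZMod 2) (T → LS)) =
      ∑ t, finrank (ZMod 2) (L t) := by
  rw [(piEquiv L).finrank_eq, Module.finrank_pi_fintype]

theorem card_comap (S : T → T → ZMod 2) (L : T → Submodule (ZMod 2) LS)
    [DecidablePred fun x : T → Fin 2 → ZMod 2 =>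
        ∀ t, ((x t, fun j => ∑ t', S t t' * x t' j) : LS) ∈ L t] :
    (univ.filter fun x : T → Fin 2 → ZMod 2 =>
        ∀ t, ((x t, fun j => ∑ t', S t t' * x t' j) : LS) ∈ L t).card =
      2 ^ finrank (ZMod 2) (LinearMap.range (GG S) ⊓ Submodule.pi Set.univ L :
        Submodule (ZMod 2) (T → LS)) := by
  classical
  rw [← Submodule.map_comap_eq,
    ← (Submodule.equivMapOfInjective (GG S) (GG_inj S)
      (Submodule.comap (GG S) (Submodule.pi Set.univ L))).finrank_eq]
  have h1 : Nat.card (Submodule.comap (GG S) (Submodule.pi Set.univ L)) =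
      2 ^ finrank (ZMod 2) (Submodule.comap (GG S) (Submodule.pi Set.univ L)) := by
    have := Module.natCard_eq_pow_finrank (K := ZMod 2)
      (V := Submodule.comap (GG S) (Submodule.pi Set.univ L))
    rwa [Nat.card_zmod] at this
  rw [← h1, ← Fintype.card_subtype, ← Nat.card_eq_fintype_card]
  refine Nat.card_congr (Equiv.subtypeEquivRight fun x => ?_)
  constructor
  · intro h t _
    exact h t
  · intro h t
    exact h t (Set.mem_univ t)

theorem symS (S : T → T → ZMod 2) (hS : ∀ t t', S t t' = S t' t) (a b : T → ZMod 2) :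
    ∑ t, a t * ∑ t', S t t' * b t' = ∑ t, (∑ t', S t t' * a t') * b t := by
  simp_rw [Finset.mul_sum, Finset.sum_mul]
  rw [Finset.sum_comm]
  refine Finset.sum_congr rfl fun t _ => Finset.sum_congr rfl fun t' _ => ?_
  rw [hS t' t]
  ring

theorem Q_graph (S : T → T → ZMod 2) (hS : ∀ t t', S t t' = S t' t) (g₁ g₂ : T → ZMod 2)
    (x : T → Fin 2 → ZMod 2) :
    ∑ t, qL (g₁ t, ∑ t', S t t' * g₁ t') (g₂ t, ∑ t', S t t' * g₂ t') (GG S x t) = 0 := by
  have h2 : ∀ a : ZMod 2, a + a = 0 := by decide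
  have e1 := symS S hS (fun t => x t 0) (fun t => x t 1)
  have e2 := symS S hS (fun t => x t 0) g₁
  have e3 := symS S hS (fun t => x t 1) g₂
  have key : ∑ t, qL (g₁ t, ∑ t', S t t' * g₁ t') (g₂ t, ∑ t', S t t' * g₂ t') (GG S x t) =
      (∑ t, x t 0 * ∑ t', S t t' * x t' 1 + ∑ t, (∑ t', S t t' * x t' 0) * x t 1) +
      (∑ t, x t 0 * ∑ t', S t t' * g₁ t' + ∑ t, (∑ t', S t t' * x t' 0) * g₁ t) +
      (∑ t, x t 1 * ∑ t', S t t' * g₂ t' + ∑ t, (∑ t', S t t' * x t' 1) * g₂ t) := by
    simp only [← Finset.sum_add_distrib]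
    refine Finset.sum_congr rfl fun t _ => ?_
    unfold qL GG
    simp only [LinearMap.coe_mk, AddHom.coe_mk]
    ring
  rw [key, e1, e2, e3]
  simp only [h2, add_zero]

end TEA4

open Classical in
open TEA4 in
/-- A4: the parity theorem in matrix form (from lag_parity = Helper3/TW/D5.lean) -/
theorem parity_mat {T : Type} [Fintype T] [DecidableEq T] (S : T → T → ZMod 2)
    (hS : ∀ t t', S t t' = S t' t) (hS0 : ∀ t, S t t = 0) (g₁ g₂ : T → ZMod 2)
    (L L' : T → Submodule (ZMod 2) LS) (h1 : ∀ t, finrank (ZMod 2) (L t) = 2)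
    (h1' : ∀ t, finrank (ZMod 2) (L' t) = 2)
    (h2 : ∀ t, ∀ w ∈ L t,
      qL (g₁ t, ∑ t', S t t' * g₁ t') (g₂ t, ∑ t', S t t' * g₂ t') w = 0)
    (h2' : ∀ t, ∀ w ∈ L' t,
      qL (g₁ t, ∑ t', S t t' * g₁ t') (g₂ t, ∑ t', S t t' * g₂ t') w = 0) :
    ∃ s s' : ℕ,
      (univ.filter fun x : T → Fin 2 → ZMod 2 =>
        ∀ t, ((x t, fun j => ∑ t', S t t' * x t' j) : LS) ∈ L t).card = 2 ^ s ∧
      (univ.filter fun x : T → Fin 2 → ZMod 2 =>
        ∀ t, ((x t, fun j => ∑ t', S t t' * x t' j) : LS) ∈ L' t).card = 2 ^ s' ∧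
      (s : ZMod 2) =
        s' + ∑ t, (finrank (ZMod 2) (L t ⊓ L' t : Submodule (ZMod 2) LS) : ZMod 2) := by
  have hpar := lag_parity (V := T → LS) BB
    (fun x => ∑ t, qL (g₁ t, ∑ t', S t t' * g₁ t') (g₂ t, ∑ t', S t t' * g₂ t') (x t))
    (by
      intro x y
      rw [BB_apply, ← Finset.sum_add_distrib, ← Finset.sum_add_distrib]
      exact Finset.sum_congr rfl fun t _ => qL_add _ _ _ _)
    BB_nondeg (LinearMap.range (GG S)) (Submodule.pi Set.univ L) (Submodule.pi Set.univ L')
    (by
      rintro _ ⟨x, rfl⟩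
      exact Q_graph S hS g₁ g₂ x)
    (by
      intro x hx
      exact Finset.sum_eq_zero fun t _ => h2 t _ (hx t (Set.mem_univ t)))
    (by
      intro x hx
      exact Finset.sum_eq_zero fun t _ => h2' t _ (hx t (Set.mem_univ t)))
    (Fintype.card T * 2)
    (by
      rw [LinearMap.finrank_range_of_inj (GG_inj S), Module.finrank_pi_fintype]
      simp)
    (by
      rw [rk_pi]
      simp [h1])
    (by
      rw [rk_pi]
      simp [h1'])
    (by
      rw [Module.finrank_pi_fintype]
      simp
      ring)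
  refine ⟨_, _, card_comap S L, card_comap S L', ?_⟩
  have h3 : (Submodule.pi Set.univ L ⊓ Submodule.pi Set.univ L' : Submodule (ZMod 2) (T → LS)) =
      Submodule.pi Set.univ (fun t => L t ⊓ L' t) := by
    ext x
    simp only [Submodule.mem_inf, Submodule.mem_pi]
    constructor
    · rintro ⟨ha, hb⟩ t ht
      exact ⟨ha t ht, hb t ht⟩
    · intro h
      exact ⟨fun t ht => (h t ht).1, fun t ht => (h t ht).2⟩
  rw [h3, rk_pi, inf_comm (Submodule.pi Set.univ L') (LinearMap.range (GG S))] at hpar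
  have h4 := (ZMod.natCast_eq_zero_iff_even).2 hpar
  push_cast at h4
  have h5 : ∀ a b c d : ZMod 2, a + b + c + d * 2 = 0 → a = c + b := by decide
  exact h5 _ _ _ _ h4

end Pool.Agent.Helper54.PT
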